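import Pool.Agent.Lib.MP_6bc78b_nt.MS.GL.Iface2

/-! Module OPA: approximation of open sets from inside by finite unions of intervals. -/

set_option autoImplicit false

open Filter Topology MeasureTheory

namespace Pool.Agent.Lib.MP_6bc78b_nt.MS.GL.H74

open Pool.Agent.Lib.MP_6bc78b_nt.MS Pool.Agent.Lib.MP_6bc78b_nt.MS.QZ
  Pool.Agent.Lib.MP_6bc78b_nt.MS.GL

theorem gauss_Ioi (x : ℝ) :
    (ProbabilityTheory.gaussianReal 0 1).real (Set.Ioi x) = Qf x := by
  rw [Measure.real, ProbabilityTheory.gaussianReal_apply_eq_integral _ one_ne_zero,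
    ENNReal.toReal_ofReal (by
      refine integral_nonneg fun u => ?_
      exact ProbabilityTheory.gaussianPDFReal_nonneg _ _ _)]
  rw [Qf, ← integral_const_mul]
  refine setIntegral_congr_fun measurableSet_Ioi fun u _ => ?_
  simp only [ProbabilityTheory.gaussianPDFReal]
  simp only [NNReal.coe_one, mul_one, sub_zero]
  congr 2
  ring

instance : NullSingletonClass (ProbabilityTheory.gaussianReal 0 1) :=
  ProbabilityTheory.nullSingletonClass_gaussianReal (μ := 0) (v := 1) one_ne_zero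

theorem gauss_Icc {a b : ℝ} (hab : a ≤ b) :
    (ProbabilityTheory.gaussianReal 0 1).real (Set.Icc a b) = Qf a - Qf b := by
  have h1 : (ProbabilityTheory.gaussianReal 0 1).real (Set.Icc a b) =
      (ProbabilityTheory.gaussianReal 0 1).real (Set.Ioc a b) := by
    rw [Measure.real, Measure.real, measure_congr Ioc_ae_eq_Icc]
  have h2 : Set.Ioi a = Set.Ioc a b ∪ Set.Ioi b := (Set.Ioc_union_Ioi_eq_Ioi hab).symm
  have h3 : (ProbabilityTheory.gaussianReal 0 1).real (Set.Ioi a) =
      (ProbabilityTheory.gaussianReal 0 1).real (Set.Ioc a b) +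
        (ProbabilityTheory.gaussianReal 0 1).real (Set.Ioi b) := by
    rw [h2]
    exact measureReal_union (Set.Ioc_disjoint_Ioi le_rfl) measurableSet_Ioi
  rw [gauss_Ioi, gauss_Ioi] at h3
  rw [h1]
  linarith

theorem opa : OpaStatement := by
  classical
  intro U ε hU hε
  -- inner regularity
  obtain ⟨K, hKU, hKc, hK⟩ : ∃ K ⊆ U, IsCompact K ∧
      (ProbabilityTheory.gaussianReal 0 1).real U <
        (ProbabilityTheory.gaussianReal 0 1).real K + ε := by
    obtain ⟨μ, hμ⟩ : ∃ μ : Measure ℝ, μ = ProbabilityTheory.gaussianReal 0 1 := ⟨_, rfl⟩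
    have hp : IsProbabilityMeasure μ := by rw [hμ]; infer_instance
    rw [← hμ]
    rcases (by positivity : (0:ℝ) ≤ μ.real U).eq_or_lt with h0 | h0
    · exact ⟨∅, Set.empty_subset _, isCompact_empty, by rw [← h0]; simp [hε]⟩
    · have hto : ∀ S : Set ℝ, μ S = ENNReal.ofReal (μ.real S) := fun S => by
        rw [Measure.real, ENNReal.ofReal_toReal (measure_ne_top _ _)]
      have h1 : ENNReal.ofReal (μ.real U - ε) < μ U := by
        rw [hto U, ENNReal.ofReal_lt_ofReal_iff h0]
        linarith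
      obtain ⟨K, hKU, hKc, hK⟩ := hU.exists_lt_isCompact h1
      refine ⟨K, hKU, hKc, ?_⟩
      by_contra hcon
      push Not at hcon
      have h2 : ENNReal.ofReal (μ.real K) ≤ ENNReal.ofReal (μ.real U - ε) :=
        ENNReal.ofReal_le_ofReal (by linarith)
      rw [← hto K] at h2
      exact absurd hK (not_lt.2 h2)
  obtain ⟨δ, hδ, hth⟩ := hKc.exists_thickening_subset_open hU hKU
  obtain ⟨c, hc⟩ : ∃ c : ℝ, c = δ / 2 := ⟨_, rfl⟩
  have hc0 : 0 < c := by rw [hc]; linarith
  obtain ⟨B, hB⟩ := hKc.isBounded.subset_closedBall 0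
  obtain ⟨N, hN⟩ := exists_nat_gt (B / c)
  obtain ⟨I, hI⟩ : ∃ I : Finset ℤ, I = (Finset.Icc (-(N : ℤ) - 1) N).filter
      (fun k : ℤ => (Set.Icc ((k : ℝ) * c) (((k : ℝ) + 1) * c) ∩ K).Nonempty) := ⟨_, rfl⟩
  obtain ⟨cell, hcell⟩ : ∃ cell : ℤ → ℝ × ℝ, ∀ k, cell k = ((k : ℝ) * c, ((k : ℝ) + 1) * c) :=
    ⟨_, fun _ => rfl⟩
  have hlt : ∀ k : ℤ, (k : ℝ) * c < ((k : ℝ) + 1) * c := fun k => by nlinarith
  have hinj : Function.Injective cell := by
    intro k l h
    rw [hcell, hcell, Prod.mk.injEq] at h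
    have h1 := mul_right_cancel₀ hc0.ne' h.1
    exact_mod_cast h1
  refine ⟨I.image cell, ?_, ?_, ?_, ?_⟩
  · intro p hp
    obtain ⟨k, -, rfl⟩ := Finset.mem_image.1 hp
    rw [hcell]
    exact hlt k
  · have key : ∀ k l : ℤ, k < l →
        Disjoint (Set.Ioo (cell k).1 (cell k).2) (Set.Ioo (cell l).1 (cell l).2) := by
      intro k l hkl
      rw [Set.disjoint_left]
      intro x hx hx2
      rw [hcell] at hx hx2
      have h1 : ((k : ℝ) + 1) * c ≤ (l : ℝ) * c := by
        have : (k : ℝ) + 1 ≤ l := by exact_mod_cast hkl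
        exact mul_le_mul_of_nonneg_right this hc0.le
      have h2 := hx.2
      have h3 := hx2.1
      simp only at h2 h3
      linarith
    intro p hp p' hp' hne
    obtain ⟨k, -, rfl⟩ := Finset.mem_image.1 (Finset.mem_coe.1 hp)
    obtain ⟨l, -, rfl⟩ := Finset.mem_image.1 (Finset.mem_coe.1 hp')
    rcases lt_trichotomy k l with h | h | h
    · exact key k l h
    · exact absurd (by rw [h]) hne
    · exact (key l k h).symm
  · intro x hx
    rw [Set.mem_iUnion₂] at hx
    obtain ⟨p, hp, hx⟩ := hx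
    obtain ⟨k, hk, rfl⟩ := Finset.mem_image.1 hp
    rw [hI, Finset.mem_filter] at hk
    obtain ⟨y, hy, hyK⟩ := hk.2
    rw [hcell] at hx
    apply hth
    rw [Metric.mem_thickening_iff]
    refine ⟨y, hyK, ?_⟩
    rw [Real.dist_eq, abs_lt]
    have h1 := hx.1
    have h2 := hx.2
    have h3 := hy.1
    have h4 := hy.2
    simp only at h1 h2
    constructor <;> nlinarith
  · rw [Finset.sum_image (fun a _ b _ h => hinj h)]
    have hcov : K ⊆ ⋃ k ∈ I, Set.Icc ((k : ℝ) * c) (((k : ℝ) + 1) * c) := by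
      intro x hx
      rw [Set.mem_iUnion₂]
      have h1 := Int.floor_le (x / c)
      have h2 := (Int.lt_floor_add_one (x / c)).le
      rw [le_div_iff₀ hc0] at h1
      rw [div_le_iff₀ hc0] at h2
      refine ⟨⌊x / c⌋, ?_, h1, h2⟩
      have h3 := hB hx
      rw [mem_closedBall_zero_iff, Real.norm_eq_abs, abs_le] at h3
      have h4 : B < N * c := by rwa [div_lt_iff₀ hc0] at hN
      rw [hI, Finset.mem_filter, Finset.mem_Icc]
      refine ⟨⟨?_, ?_⟩, ⟨x, ⟨h1, h2⟩, hx⟩⟩
      · have h5 : (-(N : ℤ) : ℤ) ≤ ⌊x / c⌋ := by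
          rw [Int.le_floor, le_div_iff₀ hc0]
          push_cast
          linarith [h3.1]
        linarith
      · have h5 : ⌊x / c⌋ < (N : ℤ) := by
          rw [Int.floor_lt, div_lt_iff₀ hc0]
          push_cast
          linarith [h3.2]
        exact h5.le
    have h1 : (ProbabilityTheory.gaussianReal 0 1).real K ≤
        ∑ k ∈ I, (ProbabilityTheory.gaussianReal 0 1).real
          (Set.Icc ((k : ℝ) * c) (((k : ℝ) + 1) * c)) :=
      (measureReal_mono hcov (measure_ne_top _ _)).trans (measureReal_biUnion_finset_le _ _)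
    have h2 : ∑ k ∈ I, (ProbabilityTheory.gaussianReal 0 1).real
          (Set.Icc ((k : ℝ) * c) (((k : ℝ) + 1) * c)) =
        ∑ k ∈ I, (Qf (cell k).1 - Qf (cell k).2) := by
      refine Finset.sum_congr rfl fun k _ => ?_
      rw [gauss_Icc (hlt k).le, hcell]
    rw [h2] at h1
    linarith

end Pool.Agent.Lib.MP_6bc78b_nt.MS.GL.H74
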